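import Pool.Agent.T2h61.CH.All

/-!
# The Calegari–Geraghty vanishing conjecture: `H¹_c` of `GL_2` over number fields

Let `F` be a number field with ring of integers `𝓞` and infinite unit group, that is
`q₀ = r₁ + r₂ ≥ 2` for `G = Res_{F/ℚ} GL_2`. Let `K_f ⊆ GL_2(𝓞^)` be the inverse image of a subgroup
`H` of `GL_2(𝓞/𝔪)`, `W` a module over a commutative ring `R` on which `K_f` acts through `H` (every
torsion coefficient module is of this kind for a suitable `𝔪`), `S` a finite set of finite places
which contains the divisors of `𝔪`. By Borel and Serre `H⁰_c(Y(K_f), W) = 0` and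
`H¹_c(Y(K_f), W) = Hom_{GL_2(F)}(St, Aut)`: `St` is the group of the divisors of degree `0` on
`ℙ¹(F)`, and `Aut` the module of the functions `φ` on `π₀(GL_2(F ⊗ ℝ)) × GL_2(𝔸_f)` with
`φ (x h) = h⁻¹ φ (x)` for `h ∈ K_f`. The elements of the right side are the modular symbols.

**Theorem.** Let `λ` be an eigensystem, with values in an algebraically closed field `k`, of the
Hecke algebra generated by the operators `T_{v,j}`, `v ∉ S`, `j = 1, 2`, in the support of
`H¹_c(Y(K_f), W)`. Then

* for all `v` outside a finite set there is `c_v ∈ k` with `λ(T_{v,1}) = (N(v) + 1) c_v` and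
  `λ(T_{v,2}) = c_v ^ 2`; or there is a character `χ` of the group of fractional ideals prime to
  `𝔪`, trivial on the ideals generated by totally positive elements which are `1` modulo `𝔪`, with
  `χ(v) ^ 2 - λ(T_{v,1}) χ(v) + N(v) λ(T_{v,2}) = 0` for all `v ∉ S`;
* if `k` has characteristic `p > 0` then every representation `ρ : Gal(L/F) → GL_2(k)`, `L` a finite
  Galois extension of `F`, which is attached to `λ`, has an invariant line: `λ` is Eisenstein.

Consequences. `Y(K_f)` is an orientable manifold of dimension `d = 3 r₁ + 4 r₂ - 1 = 2 q₀ + ℓ₀`. By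
Poincaré duality `H^{d-1}(Y(K_f), W)` (`W` finite) is dual to `H¹_c(Y(K_f), W^∨)`, and
`H^d(Y(K_f), W) = 0`; the attached representation is replaced by a twist of its dual. So
`H^i(Y(K_f), W)` vanishes after localisation at the non-Eisenstein maximal ideals also for
`i = d - 1` and `i = d`, the degrees above `q₀ + ℓ₀` if `r₁ + r₂ = 2`. Together with our hand-in
`DegreesZeroAndOneNumberFields` on the degrees `0` and `1` this is the vanishing conjecture of
Calegari and Geraghty, for torsion coefficients and therefore (Nakayama) for all coefficients, for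
`GL_2` over all fields with `r₁ + r₂ = 2`: the real quadratic fields (known), the complex cubic
fields and the totally complex quartic fields.

Proof. Let `m` be a modular symbol and `z(g) = m(g e₁) - m(e₁)`. The annihilator of the class of `z`
times the annihilator of a function invariant under the upper triangular matrices kills `m`, so
`λ` is in the support of `H¹(Y(K_f), W)` or of the functions `φ` on `B(F) \ π₀ × GL_2(𝔸_f)`. The
first case is the previous hand-in. In the second case the operators
`b_𝔞 φ (s, L, e) = φ (s, L ∩ F e₁ + 𝔞 L, e)` commute, are multiplicative in `𝔞`, trivial for the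
ideals generated by totally positive elements `≡ 1` modulo `𝔪`, and
`T_{v,1} b_v = b_v ^ 2 + N(v) T_{v,2}`. So `λ` extends to the `b_𝔞`, and this gives `χ`.

It remains to show that a representation `ρ : G = Gal(L/F) → GL_2(k)` is reducible if `χ(v)` is an
eigenvalue of `ρ(Frob_v)` for almost all `v`. Here the reciprocity law is needed, and we prove as
much of it as is used: *there is a function `ψ : G → kˣ`, invariant under conjugation and
multiplicative on commuting pairs, with `χ(v) = ψ(Frob_v)`*. (If `ρ` is faithful, `χ(v) = 1` for the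
primes `v` which split in `L`, as the eigenvalues of `ρ(1)` are `1`; then Artin's method of
crossing with a cyclotomic extension, the theorem that each ray class contains primes of degree
one, and Chebotarev's theorem give `ψ`.) The Sylow subgroups of `G` are abelian modulo the kernel
of `ρ`, since no element of `G` can exchange two eigenlines of another element; therefore `ψ` is
multiplicative on them, and by transfer it is a homomorphism. Then `ρ ⊗ ψ⁻¹` has the eigenvalue `1`
everywhere, so it has an invariant line.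
-/

set_option autoImplicit false

open NumberField IsDedekindDomain

noncomputable section

namespace Pool.Agent.Results.MP_34be05_nt.CompactSupportH1ForGL2

open Pool.Agent.T2h61.CG Pool.Agent.T2h61.CH

/-- **Theorem.** (1) The Hecke operators act on the modular symbols. (2) The eigensystems in the
support of the modular symbols are of the form `N_{v,j} c_v ^ j`, or they are given by a ray class
character `χ` and a second root; and the representations attached to them have invariant lines. -/
theorem result (F : Type) [Field F] [NumberField F] (hF : Infinite (𝓞 F)ˣ)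
    (𝔪 : Ideal (𝓞 F)) (h𝔪 : 𝔪 ≠ ⊥) (S : Set (HeightOneSpectrum (𝓞 F))) (hSf : S.Finite)
    (hS : ∀ v, 𝔪 ≤ v.asIdeal → v ∈ S) (a : HeightOneSpectrum (𝓞 F) → 𝓞 F)
    (ha : ∀ v ∉ S, a v ∈ v.asIdeal ∧ a v - 1 ∈ 𝔪) (R W : Type) [CommRing R] [AddCommGroup W]
    [Module R W] (H : Subgroup (GL (Fin 2) (𝓞 F ⧸ 𝔪))) (ρW : Representation R H W) :
    (∀ (q : Ix 2 S) (m : (Fin 2 → F) → (Fin 2 → F) → Pt F 2 → W), IsMS ρW m →
      IsMS ρW fun x y => hk R 𝔪 q.1.1 q.1.2 (a q.1.1) (m x y)) ∧
    ∀ (k : Type) [Field k] [IsAlgClosed k] [Algebra R k] (lam : FreeAlgebra R (Ix 2 S) →ₐ[R] k),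
    SuppC a ρW lam →
    ((∃ S' : Set (HeightOneSpectrum (𝓞 F)), S ⊆ S' ∧ S'.Finite ∧
      ∃ c : HeightOneSpectrum (𝓞 F) → k, ∀ q : Ix 2 S, q.1.1 ∉ S' →
        lam (FreeAlgebra.ι R q) = deg 2 q.1.1 q.1.2 * c q.1.1 ^ q.1.2) ∨
      ∃ χ : HeightOneSpectrum (𝓞 F) → k, RC χ 𝔪 ∧ ∀ v ∉ S,
        χ v ^ 2 - ev lam v 1 * χ v + (Ideal.absNorm v.asIdeal : k) * ev lam v 2 = 0) ∧
    ∀ p : ℕ, p.Prime → CharP k p → ∀ (L : Type) [Field L] [NumberField L] [Algebra F L]
      [IsGalois F L] (ρ : Gal(L/F) →* GL (Fin 2) k), Attached lam L ρ →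
      ∃ w : Fin 2 → k, w ≠ 0 ∧ ∀ g, ∃ b : k, Matrix.mulVec (ρ g).1 w = b • w := by
  refine ⟨fun q m hm => isMS_hk (fun h' => q.2.1 (hS _ h')) (ha _ q.2.1).1 (ha _ q.2.1).2 hm, ?_⟩
  intro k _ _ _ lam hl
  obtain ⟨h1, h2⟩ := a_main F hF 𝔪 h𝔪 S hSf hS a ha R W k H ρW lam hl
  refine ⟨?_, fun p hp hk L _ _ _ _ ρ hρ => h2 p hp hk L ρ hρ⟩
  rcases h1 with ⟨S', h3, h4, c, h5⟩ | h3
  · refine Or.inl ⟨S', h3, h4, c, fun q hq => ?_⟩
    have h6 := h5 q.1.1 hq q.1.2 q.2.2.1 q.2.2.2
    rwa [ev, dif_pos q.2] at h6
  · exact Or.inr h3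

end Pool.Agent.Results.MP_34be05_nt.CompactSupportH1ForGL2
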