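import Pool.Agent.T2h62.CG.Fin

/-!
# The Calegari–Geraghty vanishing conjecture for `GL_n` over `ℚ` in degrees `0` and `1`

Let `n ≥ 3`, `G = GL_n` over `ℚ`, `K_f ⊆ GL_n(ℤ^)` the inverse image of a subgroup `H` of
`GL_n(ℤ/M)`, `S` a finite set of primes which contains `p` and the primes dividing `M`, and `W` a
module over a commutative ring `R` which is killed by a power `p ^ a` of the prime `p`, on which
`K_f` acts through `H` (every torsion coefficient module is of this kind, for a suitable `M`). The
cohomology of the local system on `Y(K_f)` attached to `W` is the cohomology of `GL_n(ℚ)` with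
values in the functions `φ` on `π₀(GL_n(ℝ)) × GL_n(𝔸_f)` with `φ (x h) = h⁻¹ φ (x)` for `h ∈ K_f`.

**Theorem.** Let `λ` be an eigensystem, with values in an algebraically closed field `k` of
characteristic `p`, of the Hecke algebra generated by the operators `T_{ℓ,j}`, `ℓ ∉ S`,
`1 ≤ j ≤ n`. Suppose that `λ` is in the support of `H⁰(Y(K_f), W)` or of `H¹(Y(K_f), W)`. Then

* there is a Dirichlet character `χ` modulo `M p ^ a` with `λ(T_{ℓ,j}) = N_{ℓ,j} χ(ℓ) ^ j` for all
  `ℓ ∉ S` and all `j`, where `N_{ℓ,j}` is the degree of `T_{ℓ,j}` (the number of representatives);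
* every representation `ρ : Gal(L/ℚ) → GL_n(k)`, `L` a finite Galois extension of `ℚ`, which is
  attached to `λ`, has an invariant line. So it factors through a proper parabolic subgroup: `λ` is
  Eisenstein.

So the localisations of `H⁰(Y(K_f), W)` and `H¹(Y(K_f), W)` at the non-Eisenstein maximal ideals
vanish. For `n = 3` the degrees `0` and `1` are all degrees below `q₀ = 2`.

Proof. Let `z` be a cocycle. On `SL_n(ℤ)` it gives a function `κ(γ, x)`, `x ∈ GL_n(ℤ/M)`, with
`κ(γ δ, x) = κ(γ, δ x) + κ(δ, x)`. On the principal congruence subgroup of level `M` this is a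
homomorphism, and it kills the `p ^ a`-th powers of the elementary matrices of level `M` and their
conjugates; so by the theorem of Bass–Lazard–Serre and Mennicke it vanishes on the principal
congruence subgroup of level `M' = M p ^ a`. Then `z` is a coboundary `g u - u` of a function `u`
of level `K(M')` (strong approximation). For `h ∈ K_f` the function `h u - u` is invariant under
`GL_n(ℚ)`, so it is a function of the determinant, and the Hecke operators act on such functions
through the group ring of `(ℤ/M')ˣ`: `T_{ℓ,j}` acts as `N_{ℓ,j} [ℓ ^ j]`. If an element `t` of the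
Hecke algebra maps to zero in this group ring, then `t u` is invariant under `K_f`, so `t z` is a
coboundary in level `K_f` and `λ(t) = 0`. So `λ` factors through the image in the group ring, and
it extends to the group ring. This gives `χ`. If `ℓ` is `1` modulo `M' p` then `N_{ℓ,j}`, the number
of subspaces of dimension `n - j` of `F_ℓ ^ n`, is congruent to the binomial coefficient modulo `p`
(count the fixed points of the diagonal matrices of order `p`), and so the characteristic
polynomial of a Frobenius element at `ℓ` is `(X - 1) ^ n`. By Chebotarev's theorem the commutator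
subgroup of `Gal(L/ℚ)` acts through a `p`-group; it has a fixed vector, and the quotient, an
abelian group, has an eigenvector in the space of the fixed vectors.
-/

set_option autoImplicit false

open NumberField

noncomputable section

namespace Pool.Agent.Results.MP_34be05_nt.DegreesZeroAndOneForGLn

open Pool.Agent.T2h62.CG

/-- **Theorem.** (1) The Hecke operators `T_{ℓ,j}` have finitely many representatives. (2) The
eigensystems in the support of `H⁰` and `H¹` of `Y(K_f)` with torsion coefficients, for `GL_n` over
`ℚ`, `n ≥ 3`, are given by Dirichlet characters, and the representations attached to them have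
invariant lines. -/
theorem result (n : ℕ) (hn : 3 ≤ n) :
    (∀ ℓ j : ℕ, ℓ.Prime → 1 ≤ j → j ≤ n →
      ∃ Y : Finset (Matrix (Fin n) (Fin n) ℤ), IsReps (Dbl n ℓ j) Y) ∧
    ∀ (S : Set ℕ), S.Finite → ∀ p : ℕ, p.Prime → p ∈ S →
    ∀ M : ℕ, M ≠ 0 → (∀ q : ℕ, q.Prime → q ∣ M → q ∈ S) →
    ∀ (R W : Type) [CommRing R] [AddCommGroup W] [Module R W] (a : ℕ),
      (∀ w : W, p ^ a • w = 0) →
    ∀ (H : Subgroup (GL (Fin n) (ZMod M))) (ρW : Representation R H W)
      (Y : Ix n S → Finset (Matrix (Fin n) (Fin n) ℤ)), (∀ q, IsReps (Dbl n q.1.1 q.1.2) (Y q)) →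
    ∀ (k : Type) [Field k] [IsAlgClosed k] [CharP k p] [Algebra R k]
      (lam : FreeAlgebra R (Ix n S) →ₐ[R] k), (Supp0 Y ρW lam ∨ Supp1 Y ρW lam) →
    (∃ χ : DirichletCharacter k (M * p ^ a), ∀ q : Ix n S,
      lam (FreeAlgebra.ι R q) = ((Y q).card : k) * χ (q.1.1 : ZMod (M * p ^ a)) ^ q.1.2) ∧
    ∀ (L : Type) [Field L] [NumberField L] [IsGalois ℚ L] (ρ : Gal(L/ℚ) →* GL (Fin n) k),
      Attached lam L ρ →
      ∃ v : Fin n → k, v ≠ 0 ∧ ∀ g, ∃ c : k, Matrix.mulVec (ρ g).1 v = c • v := by
  refine ⟨fun ℓ j hℓ h1 h2 => exists_reps hℓ h1 h2, ?_⟩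
  intro S hS p hp hpS M hM hMS R W _ _ _ a hW H ρW Y hY k _ _ _ _ lam hl
  exact main n hn S hS p hp hpS M hM hMS R W a hW H ρW Y hY k lam hl

end Pool.Agent.Results.MP_34be05_nt.DegreesZeroAndOneForGLn
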