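import Pool.Agent.T2h61.CG.All

/-!
# The Calegari–Geraghty vanishing conjecture for `GL_n` over number fields in degrees `0` and `1`

Let `F` be a number field with ring of integers `𝓞`, `n ≥ 2` and `G = Res_{F/ℚ} GL_n`. Then
`q₀ ≥ 1`, and `q₀ ≥ 2` exactly if `n ≥ 3` or `𝓞ˣ` is infinite. Let `K_f ⊆ GL_n(𝓞^)` be the inverse
image of a subgroup `H` of `GL_n(𝓞/𝔪)`, `W` a module over a commutative ring `R` on which `K_f`
acts through `H` (every torsion coefficient module is of this kind for a suitable `𝔪`), `S` a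
finite set of finite places which contains the divisors of `𝔪`. The cohomology of the local system
on `Y(K_f)` attached to `W` is the cohomology of `GL_n(F)` with values in the functions `φ` on
`π₀(GL_n(F ⊗ ℝ)) × GL_n(𝔸_f)` with `φ (x h) = h⁻¹ φ (x)` for `h ∈ K_f`; these are functions of
triples (signs, lattice, level structure), see `Pool.Agent.T2h61.CG.Def`.

**Theorem.** Let `λ` be an eigensystem, with values in an algebraically closed field `k`, of the
Hecke algebra generated by the operators `T_{v,j}`, `v ∉ S`, `1 ≤ j ≤ n`. Suppose that `λ` is in the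
support of `H⁰(Y(K_f), W)`, or that `q₀ ≥ 2` and `λ` is in the support of `H¹(Y(K_f), W)`. Then

* for all `v` outside a finite set there is `c_v ∈ k` with `λ(T_{v,j}) = N_{v,j} c_v ^ j` for all
  `j`, where `N_{v,j}` is the degree of `T_{v,j}`;
* if `k` has characteristic `p > 0` then every representation `ρ : Gal(L/F) → GL_n(k)`, `L` a finite
  Galois extension of `F`, which is attached to `λ`, has an invariant line: `λ` is Eisenstein.

So `H⁰` and, if `q₀ ≥ 2`, also `H¹` of `Y(K_f)` vanish after localisation at the non-Eisenstein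
maximal ideals. These are all degrees below `q₀` for `GL_2` over the fields with `r₁ + r₂ = 2`
(complex cubic fields, totally complex quartic fields) and for `GL_3` over `ℚ`.

Proof. Let `z` be a cocycle. On a small congruence subgroup `Γ_N` of `GL_n(F)` the function
`γ ↦ z(γ)(x)` is additive. *The germ at `1` of an additive function `c` on `Γ_N` is invariant under
conjugation by `SL_n(F)`.* For `n ≥ 3` this is a computation with transvections. For `n = 2` let
`γ ∈ Γ_N` have determinant `1` and first row `(a, b)`. Then `c` kills elementary matrices of some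
level (there are infinitely many units), `c(γ)` depends only on `(a, b)`, and
`c(d γ d⁻¹) = c(γ)` for `d = diag(u, 1)` if the unit `u` is `1` modulo `a + b N s` for some `s`. By
Dirichlet's theorem in `F` the element `a + b N s` can be made the product of two primes `π₁`, `π₂`
such that the exponent of `(𝓞/π₁π₂)ˣ` is not divisible by a high power of a given prime `ℓ`, the
bound being independent of `a`, `b`, `N`, and `1` for almost all `ℓ`. So `c(d γ d⁻¹) = c(γ)` for
`d = diag(u ^ m, 1)` with a fixed `m`. The elements `d` with this property form a normal subgroup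
of `GL_2(F)`, which therefore contains `SL_2(F)`. Therefore the Hecke operators at `v` act on the
germs through one operator `U`, `T_{v,j} = N_{v,j} U ^ j`, so an element `t` of the Hecke algebra at
`v` with `t(N_{v,j} U ^ j) = 0` kills the germs, and `t z` is a coboundary in a deeper level. The
same argument for functions descends this to the level `K_f`.
-/

set_option autoImplicit false

open NumberField IsDedekindDomain

noncomputable section

namespace Pool.Agent.Results.MP_34be05_nt.DegreesZeroAndOneNumberFields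

open Pool.Agent.T2h61.CG

/-- **Theorem.** (1) The Hecke operators `T_{v,j}` are sums over finite sets of `N_{v,j}` elements.
(2) They act on the automorphic functions and commute with `GL_n(F)`. (3) The eigensystems in the
support of `H⁰` and (if `q₀ ≥ 2`) of `H¹` are of the form `N_{v,j} c_v ^ j`, and the
representations attached to them have invariant lines. -/
theorem result (F : Type) [Field F] [NumberField F] (n : ℕ) (hn : 2 ≤ n) :
    (∀ (L : Submodule (𝓞 F) (Fin n → F)), IsLat L → ∀ (v : HeightOneSpectrum (𝓞 F)) (j : ℕ),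
      (Sub v j L).Finite ∧ Nat.card (Sub v j L) = deg n v j) ∧
    ∀ (𝔪 : Ideal (𝓞 F)), 𝔪 ≠ ⊥ → ∀ (S : Set (HeightOneSpectrum (𝓞 F))), S.Finite →
    (∀ v, 𝔪 ≤ v.asIdeal → v ∈ S) → ∀ (a : HeightOneSpectrum (𝓞 F) → 𝓞 F),
    (∀ v ∉ S, a v ∈ v.asIdeal ∧ a v - 1 ∈ 𝔪) →
    ∀ (R W : Type) [CommRing R] [AddCommGroup W] [Module R W]
      (H : Subgroup (GL (Fin n) (𝓞 F ⧸ 𝔪))) (ρW : Representation R H W),
    (∀ (q : Ix n S) (φ : Pt F n → W), Aut ρW φ →
      Aut ρW (hk R 𝔪 q.1.1 q.1.2 (a q.1.1) φ) ∧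
      ∀ g, hk R 𝔪 q.1.1 q.1.2 (a q.1.1) (tr g φ) = tr g (hk R 𝔪 q.1.1 q.1.2 (a q.1.1) φ)) ∧
    ∀ (k : Type) [Field k] [IsAlgClosed k] [Algebra R k] (lam : FreeAlgebra R (Ix n S) →ₐ[R] k),
    (Supp0 a ρW lam ∨ (3 ≤ n ∨ Infinite (𝓞 F)ˣ) ∧ Supp1 a ρW lam) →
    (∃ S' : Set (HeightOneSpectrum (𝓞 F)), S ⊆ S' ∧ S'.Finite ∧
      ∃ c : HeightOneSpectrum (𝓞 F) → k, ∀ q : Ix n S, q.1.1 ∉ S' →
        lam (FreeAlgebra.ι R q) = deg n q.1.1 q.1.2 * c q.1.1 ^ q.1.2) ∧
    ∀ p : ℕ, p.Prime → CharP k p → ∀ (L : Type) [Field L] [NumberField L] [Algebra F L]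
      [IsGalois F L] (ρ : Gal(L/F) →* GL (Fin n) k), Attached lam L ρ →
      ∃ w : Fin n → k, w ≠ 0 ∧ ∀ g, ∃ b : k, Matrix.mulVec (ρ g).1 w = b • w := by
  refine ⟨fun L hL v j => ?_, ?_⟩
  · have h1 := a_GRS F n L hL v j
    exact ⟨h1.1, by rw [deg, h1.2, (a_GRS F n _ (isLat_stdL F n) v j).2]⟩
  intro 𝔪 h𝔪 S hSf hS a ha R W _ _ _ H ρW
  refine ⟨fun q φ hφ => ⟨THK.t_HKA F n R W 𝔪 q.1.1 q.1.2 (a q.1.1) H ρW
    (fun h' => q.2.1 (hS _ h')) (ha _ q.2.1).1 (ha _ q.2.1).2 φ hφ,
    fun g => THK.t_HKG F n R W 𝔪 q.1.1 q.1.2 (a q.1.1) g φ⟩, ?_⟩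
  intro k _ _ _ lam hl
  obtain ⟨⟨S', h1, h2, c, h3⟩, h4⟩ := a_main F n hn 𝔪 h𝔪 S hSf hS a ha R W k H ρW lam hl
  refine ⟨⟨S', h1, h2, c, fun q hq => ?_⟩, fun p hp hk L _ _ _ _ ρ hρ => h4 p hp hk L ρ hρ⟩
  have h5 := h3 q.1.1 hq q.1.2 q.2.2.1 q.2.2.2
  rwa [ev, dif_pos q.2] at h5

end Pool.Agent.Results.MP_34be05_nt.DegreesZeroAndOneNumberFields
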